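import Pool.Agent.helper12.KZ.Spec

/-!
# Project kz, module KEH: the chains of the kernel
-/

set_option autoImplicit false

namespace Pool.Agent.KZ

open Pool.Agent.helper58.DC Pool.Agent.DI Pool.Agent.TY

theorem KEH_fr (Γ A : Type) [Group Γ] [Group A] (l : ℕ) (π : Γ →* A) (h : Function.Surjective π) :
    Fr l π π.ker where
  surj := h
  nor := MonoidHom.normal_ker π
  le := le_refl _
  idx := by rw [Subgroup.relIndex_self]; exact one_dvd _
  cen := by
    intro x k hk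
    rw [MonoidHom.mem_ker] at hk ⊢
    rw [map_mul, map_mul, map_mul, map_inv, map_inv, hk, mul_one, inv_one, mul_one, mul_inv_cancel]

theorem KEH_sum (A : Type) [Group A] (F : Subgroup A → ℤ) :
    ∑ᶠ U ∈ {U : Subgroup A | U.map (MonoidHom.id A) = ⊤}, F U = F ⊤ := by
  have e : {U : Subgroup A | U.map (MonoidHom.id A) = ⊤} = {(⊤ : Subgroup A)} := by
    ext U
    rw [Set.mem_singleton_iff]
    constructor
    · intro hU
      have hU' : U.map (MonoidHom.id A) = ⊤ := hU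
      rwa [Subgroup.map_id] at hU'
    · intro hU
      show U.map (MonoidHom.id A) = ⊤
      rw [Subgroup.map_id, hU]
  rw [e, finsum_mem_singleton]

theorem KEH_card (A : Type) [Group A] :
    Nat.card ((⊤ : Subgroup A) ⊓ (MonoidHom.id A).ker : Subgroup A) = 1 := by
  have e : ((⊤ : Subgroup A) ⊓ (MonoidHom.id A).ker : Subgroup A) = ⊥ := by
    rw [top_inf_eq, (MonoidHom.ker_eq_bot_iff _).2 Function.injective_id]
  rw [e]
  exact Subgroup.card_bot

open Classical in
theorem KEH (hKCS : KCS_stmt) (hA7 : A7_stmt) (hA8 : A8_stmt) (hA14 : A14_stmt) (hC15 : C15_stmt) :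
    KEH_stmt := by
  intro Γ A _ _ _ p l _ _ M hM hpM hN π h G₀ hG₀ hOp τ d
  obtain ⟨R, hR1, hR2⟩ := hC15 π.ker M
  have hr : (XK π h).inc.range = π.ker := Subgroup.range_subtype _
  have hfr : Fr l π (XK π h).inc.range := by
    rw [hr]
    exact KEH_fr Γ A l π h
  have hG₀' : G₀ ≤ (XK π h).inc.range := by
    rw [hr]
    exact hG₀
  have e5 := hKCS π.ker Γ A A Γ (XK π h) (XK π h).inc.range ⊤ G₀ 1 (embT (XK π h)) p l M hM hpM hN π
    (MonoidHom.id A) hfr hG₀' (fun _ => rfl) τ d R hR1 hR2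
  have e4 := hA8 π.ker Γ p (XK π h).inc (XK π h).inc_injective ⊤ (gst p M π G₀ τ d)
  have e4' : (∑ᶠ C ∈ {C : Finset (Subgroup π.ker) | IsRadical p C},
      (-1) ^ (C.card + 1) * gst p M π G₀ τ d (⊤ ⊓ nrm (cmap (embT (XK π h)).i C))) =
      rSum p (XK π h).inc.range ⊤ (gst p M π G₀ τ d) := e4
  have e6 : rSum p (XK π h).inc.range ⊤ (gst p M π G₀ τ d) = rSum p π.ker ⊤ (gst p M π G₀ τ d) := by
    rw [hr]
  rw [e4', e6] at e5
  have hOp' : IsOp p π.ker ⊥ := ((hA14 Γ Γ p (MonoidHom.id Γ) Function.injective_id).2.2 π.ker).1 hOp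
  have e3 := hA7 Γ p π.ker ⊥ ⊤ (gst p M π G₀ τ d) hOp' (by
    have : nz π.ker = ⊤ := Subgroup.normalizer_eq_top_iff.2 (MonoidHom.normal_ker π)
    rw [this]
    exact le_top)
  rw [e3] at e5
  refine ⟨R.filter (fun b => Cov M G₀ τ (ext0 (embT (XK π h)).i b)), ?_, ?_⟩
  · intro b hb
    exact hR1 b (Finset.mem_filter.1 hb).1
  · rw [e5, Finset.sum_filter, Finset.mul_sum, Finset.mul_sum]
    apply Finset.sum_congr rfl
    intro b _
    by_cases hc : Cov M G₀ τ (ext0 (embT (XK π h)).i b)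
    · rw [if_pos hc, if_pos hc, KEH_sum, KEH_card]
      simp
    · rw [if_neg hc, if_neg hc]
      simp

end Pool.Agent.KZ
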